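import Pool.Agent.W845.TR.Base

set_option autoImplicit false
open scoped BigOperators

/-! Project TR, part TR-MAT: winning criteria on a finite board. -/

namespace Pool.Agent.W813.TR

open Pool.Agent.W845.TR

theorem key {d : ℕ} {H I : Finset (S d)} (hI : MaxInd H I) {M : S d → S d}
    (hM : ∀ x ∈ H \ I, M x ∈ I ∧ adj x (M x))
    (hinj : Set.InjOn M ((H \ I : Finset (S d)) : Set (S d))) :
    ∀ (m : ℕ) (z : S d) (A : Finset (S d)), z ∈ H → z ∉ I → z ∈ A →
      (∀ w ∈ I, (w ∈ A ↔ ∃ u ∈ A, u ∈ H \ I ∧ u ≠ z ∧ M u = w)) →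
      ((H \ I) \ A).card + 1 ≤ m → W (H : Set (S d)) m z A := by
  intro m
  induction m with
  | zero => intro z A _ _ _ _ h; omega
  | succ m ih =>
    intro z A hzH hzI hzA hA hc
    have hz : z ∈ H \ I := Finset.mem_sdiff.2 ⟨hzH, hzI⟩
    obtain ⟨hy1, hy2⟩ := hM z hz
    have hyA : M z ∉ A := by
      intro h
      obtain ⟨u, hu1, hu2, hu3, hu4⟩ := (hA _ hy1).1 h
      exact hu3 (hinj (Finset.mem_coe.2 hu2) (Finset.mem_coe.2 hz) hu4)
    refine ⟨M z, ⟨hy2, Finset.mem_coe.2 (hI.1 hy1), hyA⟩, fun z' hz' => ?_⟩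
    obtain ⟨h1, h2, h3⟩ := hz'
    have h2' : z' ∈ H := Finset.mem_coe.1 h2
    have h4 : z' ∉ I := fun h => hI.2.1 (M z) hy1 z' h h1
    have h5 : z' ≠ M z := fun h => h3 (h ▸ Finset.mem_insert_self _ _)
    have h6 : z' ∉ A := fun h => h3 (Finset.mem_insert_of_mem h)
    refine ih z' _ h2' h4 (Finset.mem_insert_self _ _) ?_ ?_
    · intro w hw
      constructor
      · intro hwA
        rcases Finset.mem_insert.1 hwA with rfl | hwA
        · exact absurd hw h4
        rcases Finset.mem_insert.1 hwA with rfl | hwA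
        · exact ⟨z, Finset.mem_insert_of_mem (Finset.mem_insert_of_mem hzA), hz,
            fun h => h6 (h ▸ hzA), rfl⟩
        · obtain ⟨u, hu1, hu2, hu3, hu4⟩ := (hA _ hw).1 hwA
          exact ⟨u, Finset.mem_insert_of_mem (Finset.mem_insert_of_mem hu1), hu2,
            fun h => h6 (h ▸ hu1), hu4⟩
      · rintro ⟨u, hu1, hu2, hu3, hu4⟩
        rcases Finset.mem_insert.1 hu1 with h | hu1
        · exact absurd h hu3
        rcases Finset.mem_insert.1 hu1 with h | hu1
        · exact absurd (h ▸ hy1) (Finset.mem_sdiff.1 hu2).2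
        by_cases huz : u = z
        · subst huz
          rw [← hu4]
          exact Finset.mem_insert_of_mem (Finset.mem_insert_self _ _)
        · exact Finset.mem_insert_of_mem (Finset.mem_insert_of_mem
            ((hA _ hw).2 ⟨u, hu1, hu2, huz, hu4⟩))
    · have hlt : ((H \ I) \ (insert z' (insert (M z) A))).card < ((H \ I) \ A).card := by
        apply Finset.card_lt_card
        rw [Finset.ssubset_iff_of_subset]
        · exact ⟨z', Finset.mem_sdiff.2 ⟨Finset.mem_sdiff.2 ⟨h2', h4⟩, h6⟩, fun h =>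
            (Finset.mem_sdiff.1 h).2 (Finset.mem_insert_self _ _)⟩
        · intro u hu
          rw [Finset.mem_sdiff] at hu ⊢
          exact ⟨hu.1, fun h => hu.2 (Finset.mem_insert_of_mem (Finset.mem_insert_of_mem h))⟩
      omega

theorem part1 (hH : St_HALL) {d : ℕ} (H : Finset (S d)) (x : S d) (hx : x ∈ H)
    (h : ∃ I, MaxInd H I ∧ x ∉ I) : W (H : Set (S d)) H.card x {x} := by
  obtain ⟨I, hI, hxI⟩ := h
  obtain ⟨M, hM, hinj⟩ := hH d H I hI
  refine key hI hM hinj H.card x {x} hx hxI (Finset.mem_singleton_self _) ?_ ?_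
  · intro w hw
    constructor
    · intro h
      rw [Finset.mem_singleton] at h
      exact absurd (h ▸ hw) hxI
    · rintro ⟨u, hu1, _, hu3, _⟩
      exact absurd (Finset.mem_singleton.1 hu1) hu3
  · have : (H \ I) \ {x} ⊆ H.erase x := by
      intro u hu
      rw [Finset.mem_sdiff, Finset.mem_sdiff, Finset.mem_singleton] at hu
      exact Finset.mem_erase.2 ⟨hu.2, hu.1.1⟩
    have h1 := Finset.card_le_card this
    have h2 := Finset.card_erase_add_one hx
    omega

/-- TR-MAT. -/
theorem mat : St_HALL → St_MAT := by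
  intro hH d H x hx
  refine ⟨part1 hH H x hx, ?_⟩
  intro hall y hy
  obtain ⟨I, hI⟩ := exists_maxInd H
  have hxI := hall I hI
  have hal := (forall_mem_iff H x).1 hall
  obtain ⟨hy1, hy2, hy3⟩ := hy
  have hy2' : y ∈ H := Finset.mem_coe.1 hy2
  have hyx : y ≠ x := fun h => hy3 (Finset.mem_singleton.2 h)
  have hyI : y ∉ I := fun h => hI.2.1 x hxI y h hy1
  have hmax : MaxInd (H.erase x) (I.erase x) := by
    refine ⟨Finset.erase_subset_erase x hI.1, hI.2.1.subset (Finset.erase_subset x I), ?_⟩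
    have h1 := Finset.card_erase_add_one hxI
    have h2 := hI.2.2
    omega
  have hW := part1 hH (H.erase x) y (Finset.mem_erase.2 ⟨hyx, hy2'⟩)
    ⟨I.erase x, hmax, fun h => hyI (Finset.mem_of_mem_erase h)⟩
  rw [Finset.coe_erase, W_erase] at hW
  rw [Finset.pair_comm]
  exact W_mono (Finset.card_le_card (Finset.erase_subset _ _)) hW

end Pool.Agent.W813.TR
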